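import Pool.Agent.Helper14.BSC.Stmts

set_option autoImplicit false

namespace Pool.Agent.Helper14.BSC

section

variable {k Ω : Type} [Field k] [Field Ω] [Algebra k Ω] {p : ℕ} [Fact p.Prime]

theorem asy2_mul (Lc : Loc k Ω p) (x y : Acl k Ω) : nm Lc (x * y) = nm Lc x * nm Lc y := by
  unfold nm
  rw [map_mul, norm_mul]

theorem asy2_one (Lc : Loc k Ω p) : nm Lc 1 = 1 := by
  unfold nm
  rw [map_one, norm_one]

theorem asy2_nonneg (Lc : Loc k Ω p) (x : Acl k Ω) : 0 ≤ nm Lc x := norm_nonneg _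

theorem asy2_neg (Lc : Loc k Ω p) (x : Acl k Ω) : nm Lc (-x) = nm Lc x := by
  unfold nm
  rw [map_neg, norm_neg]

theorem asy2_add (Lc : Loc k Ω p) (x y : Acl k Ω) : nm Lc (x + y) ≤ max (nm Lc x) (nm Lc y) := by
  unfold nm
  rw [map_add]
  exact IsUltrametricDist.norm_add_le_max _ _

theorem asy2_add1 (Lc : Loc k Ω p) {x y : Acl k Ω} (hx : nm Lc x ≤ 1) (hy : nm Lc y ≤ 1) :
    nm Lc (x + y) ≤ 1 := (asy2_add Lc x y).trans (max_le hx hy)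

theorem asy2_sub1 (Lc : Loc k Ω p) {x y : Acl k Ω} (hx : nm Lc x ≤ 1) (hy : nm Lc y ≤ 1) :
    nm Lc (x - y) ≤ 1 := by
  rw [sub_eq_add_neg]
  exact asy2_add1 Lc hx (by rw [asy2_neg]; exact hy)

theorem asy2_mul1 (Lc : Loc k Ω p) {x y : Acl k Ω} (hx : nm Lc x ≤ 1) (hy : nm Lc y ≤ 1) :
    nm Lc (x * y) ≤ 1 := by
  rw [asy2_mul]
  exact mul_le_one₀ hx (asy2_nonneg Lc y) hy

end

theorem st_ASY2 (hASYK : ST_ASYK) (hRESK : ST_RESK) : ST_ASY2 := by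
  intro k Ω _ _ _ p _ hp2 Lc
  obtain ⟨κ, instF, instFin, instC, ρ, h1, hsurj, hzero, hhom⟩ := hRESK k Ω p Lc
  have n1 : nm Lc ((1 : FF Lc.S₁) : Acl k Ω) ≤ 1 := (asy2_one Lc).le
  have n0 : nm Lc ((0 : FF Lc.S₁) : Acl k Ω) < 1 := by
    unfold nm
    rw [ZeroMemClass.coe_zero, map_zero, norm_zero]
    norm_num
  have hneg : nm Lc ((-1 : FF Lc.S₁) : Acl k Ω) ≤ 1 := by
    have : ((-1 : FF Lc.S₁) : Acl k Ω) = -1 := rfl
    rw [this, asy2_neg]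
    exact (asy2_one Lc).le
  have h0 : ρ 0 = 0 := (hzero 0 n0.le).2 n0
  have hsub : ∀ x y : FF Lc.S₁, nm Lc x ≤ 1 → nm Lc y ≤ 1 → ρ (x - y) = ρ x - ρ y := by
    intro x y hx hy
    have h2 := (hhom (x - y) y (asy2_sub1 Lc hx hy) hy).1
    rw [sub_add_cancel] at h2
    rw [h2, add_sub_cancel_right]
  have hm1 : IsSquare (-1 : κ) := by
    obtain ⟨i, hi, hi2⟩ := Lc.I4
    have hni : nm Lc i ≤ 1 := by
      have h2 : nm Lc i * nm Lc i = 1 := by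
        rw [← asy2_mul, ← sq, hi2, asy2_neg]
        exact asy2_one Lc
      have h3 := asy2_nonneg Lc i
      nlinarith
    refine ⟨ρ ⟨i, hi⟩, ?_⟩
    rw [← (hhom ⟨i, hi⟩ ⟨i, hi⟩ hni hni).2]
    have h4 : (⟨i, hi⟩ * ⟨i, hi⟩ : FF Lc.S₁) = 0 - 1 := by
      apply Subtype.ext
      change i * i = 0 - 1
      rw [← sq, hi2]
      ring
    rw [h4, hsub 0 1 n0.le n1, h0, h1]
    ring
  have hchar : ringChar κ ≠ 2 := by
    rw [ringChar.eq κ p]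
    exact hp2
  obtain ⟨e, he1, he2, he3⟩ := hASYK κ hm1 hchar
  obtain ⟨x, hx, hxe⟩ := hsurj e
  have hx1 : nm Lc (x : Acl k Ω) = 1 := by
    rcases hx.lt_or_eq with h | h
    · exfalso
      apply he1
      rw [← hxe, (hzero x hx).2 h]
      exact IsSquare.zero
    · exact h
  have hx2 : nm Lc ((1 : Acl k Ω) + x) = 1 := by
    have h5 : nm Lc ((1 + x : FF Lc.S₁) : Acl k Ω) ≤ 1 := asy2_add1 Lc n1 hx
    rcases h5.lt_or_eq with h | h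
    · exfalso
      apply he1
      have h6 := (hzero (1 + x) h5).2 h
      rw [(hhom 1 x n1 hx).1, h1, hxe] at h6
      have h7 : e = -1 := by linear_combination h6
      rw [h7]
      exact hm1
    · exact h
  refine ⟨x, x.2, hx1, hx2, ?_, ?_, ?_⟩
  · intro y hy hny
    by_contra hlt
    rw [not_le] at hlt
    apply he1
    have hyy : nm Lc ((⟨y, hy⟩ * ⟨y, hy⟩ : FF Lc.S₁) : Acl k Ω) ≤ 1 := asy2_mul1 Lc hny hny
    have h5 : nm Lc ((⟨y, hy⟩ * ⟨y, hy⟩ - x : FF Lc.S₁) : Acl k Ω) < 1 := by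
      have : ((⟨y, hy⟩ * ⟨y, hy⟩ - x : FF Lc.S₁) : Acl k Ω) = y ^ 2 - x := by
        rw [sq]; rfl
      rw [this]
      exact hlt
    have h6 := (hzero _ h5.le).2 h5
    rw [hsub _ _ hyy hx, (hhom ⟨y, hy⟩ ⟨y, hy⟩ hny hny).2, hxe] at h6
    exact ⟨ρ ⟨y, hy⟩, (sub_eq_zero.1 h6).symm⟩
  · obtain ⟨a, ha⟩ := he2
    obtain ⟨y, hy, hya⟩ := hsurj a
    refine ⟨y, y.2, ?_⟩
    have hyy : nm Lc ((y * y : FF Lc.S₁) : Acl k Ω) ≤ 1 := asy2_mul1 Lc hy hy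
    have hx3 : nm Lc ((1 + x : FF Lc.S₁) : Acl k Ω) ≤ 1 := asy2_add1 Lc n1 hx
    have h5 : nm Lc ((y * y - (1 + x) : FF Lc.S₁) : Acl k Ω) ≤ 1 := asy2_sub1 Lc hyy hx3
    have h6 : ρ (y * y - (1 + x)) = 0 := by
      rw [hsub _ _ hyy hx3, (hhom y y hy hy).2, (hhom 1 x n1 hx).1, h1, hxe, hya, ← ha, sub_self]
    have h7 := (hzero _ h5).1 h6
    have : ((y * y - (1 + x) : FF Lc.S₁) : Acl k Ω) = (y : Acl k Ω) ^ 2 - (1 + x) := by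
      rw [sq]; rfl
    rw [this] at h7
    exact h7
  · intro y hy hny
    by_contra hlt
    rw [not_le] at hlt
    apply he3
    have hyy : nm Lc ((⟨y, hy⟩ * ⟨y, hy⟩ : FF Lc.S₁) : Acl k Ω) ≤ 1 := asy2_mul1 Lc hny hny
    have hx3 : nm Lc ((1 - x : FF Lc.S₁) : Acl k Ω) ≤ 1 := asy2_sub1 Lc n1 hx
    have h5 : nm Lc ((⟨y, hy⟩ * ⟨y, hy⟩ - (1 - x) : FF Lc.S₁) : Acl k Ω) < 1 := by
      have : ((⟨y, hy⟩ * ⟨y, hy⟩ - (1 - x) : FF Lc.S₁) : Acl k Ω) = y ^ 2 - (1 - x) := by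
        rw [sq]; rfl
      rw [this]
      exact hlt
    have h6 := (hzero _ h5.le).2 h5
    rw [hsub _ _ hyy hx3, (hhom ⟨y, hy⟩ ⟨y, hy⟩ hny hny).2, hsub 1 x n1 hx, h1, hxe] at h6
    exact ⟨ρ ⟨y, hy⟩, (sub_eq_zero.1 h6).symm⟩

end Pool.Agent.Helper14.BSC
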