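import Pool.Agent.Helper14.BSC.Stmts2

set_option autoImplicit false

namespace Pool.Agent.Helper14.BSC

open Polynomial

section

variable {F : Type} [Field F]

theorem lzt_alg_ne (q : Polynomial F) (h : q ≠ 0) : algebraMap (Polynomial F) (RatFunc F) q ≠ 0 :=
  (map_ne_zero_iff _ (IsFractionRing.injective (Polynomial F) (RatFunc F))).2 h

theorem lzt_ndvd_ne {π q : Polynomial F} (h : ¬ π ∣ q) : q ≠ 0 := by
  rintro rfl
  exact h (dvd_zero π)

theorem lzt_poly {π q : Polynomial F} (hπ : Irreducible π) (h : ¬ π ∣ q) :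
    UnitAt π (algebraMap (Polynomial F) (RatFunc F) q) :=
  ⟨q, 1, h, fun h1 => hπ.not_isUnit (isUnit_of_dvd_one h1), by rw [map_one, mul_one]⟩

theorem lzt_one {π : Polynomial F} (hπ : Irreducible π) : UnitAt π (1 : RatFunc F) :=
  ⟨1, 1, fun h1 => hπ.not_isUnit (isUnit_of_dvd_one h1), fun h1 => hπ.not_isUnit (isUnit_of_dvd_one h1),
    by rw [one_mul]⟩

theorem lzt_ne {π : Polynomial F} {x : RatFunc F} (h : UnitAt π x) : x ≠ 0 := by
  obtain ⟨A, B, hA, hB, hx⟩ := h
  rintro rfl
  rw [zero_mul] at hx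
  exact lzt_alg_ne A (lzt_ndvd_ne hA) hx.symm

theorem lzt_mul {π : Polynomial F} (hπ : Irreducible π) {x y : RatFunc F} (hx : UnitAt π x)
    (hy : UnitAt π y) : UnitAt π (x * y) := by
  obtain ⟨A, B, hA, hB, h1⟩ := hx
  obtain ⟨A', B', hA', hB', h2⟩ := hy
  refine ⟨A * A', B * B', fun h => (hπ.prime.dvd_or_dvd h).elim hA hA',
    fun h => (hπ.prime.dvd_or_dvd h).elim hB hB', ?_⟩
  rw [map_mul, map_mul, ← h1, ← h2]
  ring

theorem lzt_inv {π : Polynomial F} {x : RatFunc F} (hx : UnitAt π x) : UnitAt π x⁻¹ := by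
  have h0 := lzt_ne hx
  obtain ⟨A, B, hA, hB, h1⟩ := hx
  refine ⟨B, A, hB, hA, ?_⟩
  rw [← h1]
  field_simp

theorem lzt_pow {π : Polynomial F} (hπ : Irreducible π) {x : RatFunc F} (hx : UnitAt π x) (n : ℕ) :
    UnitAt π (x ^ n) := by
  induction n with
  | zero => rw [pow_zero]; exact lzt_one hπ
  | succ n ih => rw [pow_succ]; exact lzt_mul hπ ih hx

theorem lzt_zpow {π : Polynomial F} (hπ : Irreducible π) {x : RatFunc F} (hx : UnitAt π x) (n : ℤ) :
    UnitAt π (x ^ n) := by
  rcases n.eq_nat_or_neg with ⟨m, rfl | rfl⟩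
  · rw [zpow_natCast]; exact lzt_pow hπ hx m
  · rw [zpow_neg, zpow_natCast]; exact lzt_inv (lzt_pow hπ hx m)

theorem lzt_prod {π : Polynomial F} (hπ : Irreducible π) {ι : Type} (s : Finset ι) (f : ι → RatFunc F)
    (h : ∀ i ∈ s, UnitAt π (f i)) : UnitAt π (∏ i ∈ s, f i) := by
  classical
  induction s using Finset.induction_on with
  | empty => rw [Finset.prod_empty]; exact lzt_one hπ
  | insert a s ha ih =>
    rw [Finset.prod_insert ha]
    exact lzt_mul hπ (h a (Finset.mem_insert_self a s)) (ih fun i hi => h i (Finset.mem_insert_of_mem hi))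

theorem lzt_assoc {π π' : Polynomial F} (h : Associated π π') {x : RatFunc F} (hx : UnitAt π' x) :
    UnitAt π x := by
  obtain ⟨A, B, hA, hB, h1⟩ := hx
  exact ⟨A, B, fun h2 => hA (h.symm.dvd.trans h2), fun h2 => hB (h.symm.dvd.trans h2), h1⟩

theorem lzt_coef {π : Polynomial F} (x : RatFunc F) (h1 : ¬ π ∣ x.num)
    (h2 : ¬ π ∣ x.denom) : UnitAt π x := by
  refine ⟨x.num, x.denom, h1, h2, ?_⟩
  have h3 := RatFunc.num_div_denom x
  have h4 := lzt_alg_ne x.denom (RatFunc.denom_ne_zero x)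
  rw [div_eq_iff h4] at h3
  exact h3.symm

theorem lzt_not_dvd {π π' : Polynomial F} (hπ : Irreducible π) (hπ' : Irreducible π')
    (h : ¬ Associated π π') : ¬ π ∣ π' := fun h1 => h (hπ.associated_of_dvd hπ' h1)

end

theorem st_LZT (hPIV : ST_PIV) (hFACT : ST_FACT) (hLZC : ST_LZC) : ST_LZT := by
  classical
  intro F _ _ hFG hLZ b U hb hU hloc
  have hp := hPIV F hFG b U hb hU hloc
  have hm : ∀ π : Polynomial F, ∃ m : ℤ, Irreducible π → ((∀ N : ℕ, 0 < N → ∃ s : ℤ,
        UnitAt π (b N * (algebraMap (Polynomial F) (RatFunc F) π) ^ (-(m + N * s)))) ∧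
      ((∀ i, U.coeff i ≠ 0 → UnitAt π (U.coeff i)) → m = 0)) := by
    intro π
    by_cases h : Irreducible π
    · obtain ⟨m, hm⟩ := hp π h
      exact ⟨m, fun _ => hm⟩
    · exact ⟨0, fun h1 => absurd h1 h⟩
  choose m hm using hm
  set P : Finset (Polynomial F) := U.support.biUnion (fun i =>
    (UniqueFactorizationMonoid.normalizedFactors (U.coeff i).num).toFinset ∪
    (UniqueFactorizationMonoid.normalizedFactors (U.coeff i).denom).toFinset) with hP
  have hPi : ∀ π ∈ P, Irreducible π ∧ normalize π = π := by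
    intro π hπ
    rw [hP, Finset.mem_biUnion] at hπ
    obtain ⟨i, -, hi⟩ := hπ
    rw [Finset.mem_union, Multiset.mem_toFinset, Multiset.mem_toFinset] at hi
    rcases hi with hi | hi
    · exact ⟨UniqueFactorizationMonoid.irreducible_of_normalized_factor π hi,
        UniqueFactorizationMonoid.normalize_normalized_factor π hi⟩
    · exact ⟨UniqueFactorizationMonoid.irreducible_of_normalized_factor π hi,
        UniqueFactorizationMonoid.normalize_normalized_factor π hi⟩
  have hPm : ∀ π : Polynomial F, Irreducible π → (∀ π' ∈ P, ¬ Associated π π') → m π = 0 := by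
    intro π hπ hn
    refine (hm π hπ).2 (fun i hi => ?_)
    refine lzt_coef (U.coeff i) ?_ ?_
    · intro h1
      obtain ⟨q, hq, hq2⟩ := UniqueFactorizationMonoid.exists_mem_normalizedFactors_of_dvd
        (RatFunc.num_ne_zero hi) hπ h1
      refine hn q ?_ hq2
      rw [hP, Finset.mem_biUnion]
      exact ⟨i, Polynomial.mem_support_iff.2 hi, Finset.mem_union_left _ (Multiset.mem_toFinset.2 hq)⟩
    · intro h1
      obtain ⟨q, hq, hq2⟩ := UniqueFactorizationMonoid.exists_mem_normalizedFactors_of_dvd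
        (RatFunc.denom_ne_zero (U.coeff i)) hπ h1
      refine hn q ?_ hq2
      rw [hP, Finset.mem_biUnion]
      exact ⟨i, Polynomial.mem_support_iff.2 hi, Finset.mem_union_right _ (Multiset.mem_toFinset.2 hq)⟩
  set r0 : RatFunc F := ∏ π ∈ P, (algebraMap (Polynomial F) (RatFunc F) π) ^ (m π) with hr0
  have hr0n : r0 ≠ 0 := by
    rw [hr0, Finset.prod_ne_zero_iff]
    intro π hπ
    exact zpow_ne_zero _ (lzt_alg_ne π (hPi π hπ).1.ne_zero)
  -- the valuations of `b N / r0`
  have hval : ∀ N : ℕ, 0 < N → ∀ π : Polynomial F, Irreducible π → ∃ s : ℤ,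
      UnitAt π (b N * r0⁻¹ * (algebraMap (Polynomial F) (RatFunc F) π) ^ (-(N * s))) := by
    intro N hN π hπ
    by_cases hn : ∀ π' ∈ P, ¬ Associated π π'
    · obtain ⟨s, hs⟩ := (hm π hπ).1 N hN
      rw [hPm π hπ hn, zero_add] at hs
      refine ⟨s, ?_⟩
      have h1 : UnitAt π r0 := by
        rw [hr0]
        refine lzt_prod hπ P _ (fun π' hπ' => lzt_zpow hπ (lzt_poly hπ ?_) _)
        exact lzt_not_dvd hπ (hPi π' hπ').1 (hn π' hπ')
      have h2 : b N * r0⁻¹ * (algebraMap (Polynomial F) (RatFunc F) π) ^ (-(N * s))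
          = b N * (algebraMap (Polynomial F) (RatFunc F) π) ^ (-(N * s)) * r0⁻¹ := by ring
      rw [h2]
      exact lzt_mul hπ hs (lzt_inv h1)
    · push Not at hn
      obtain ⟨π', hπ', hass⟩ := hn
      obtain ⟨hirr', hnorm'⟩ := hPi π' hπ'
      obtain ⟨s, hs⟩ := (hm π' hirr').1 N hN
      refine ⟨s, ?_⟩
      apply lzt_assoc hass
      -- the other factors
      set r1 : RatFunc F := ∏ q ∈ P.erase π', (algebraMap (Polynomial F) (RatFunc F) q) ^ (m q) with hr1
      have h3 : r0 = (algebraMap (Polynomial F) (RatFunc F) π') ^ (m π') * r1 := by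
        rw [hr0, hr1, Finset.mul_prod_erase P (fun q => (algebraMap (Polynomial F) (RatFunc F) q) ^ (m q)) hπ']
      have h4 : UnitAt π' r1 := by
        rw [hr1]
        refine lzt_prod hirr' _ _ (fun q hq => lzt_zpow hirr' (lzt_poly hirr' ?_) _)
        rw [Finset.mem_erase] at hq
        refine lzt_not_dvd hirr' (hPi q hq.2).1 (fun h5 => hq.1 ?_)
        have h6 := normalize_eq_normalize h5.dvd h5.symm.dvd
        rw [hnorm', (hPi q hq.2).2] at h6
        exact h6.symm
      -- π = unit * π'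
      obtain ⟨u, hu⟩ := hass.symm
      have hu0 : UnitAt π' (algebraMap (Polynomial F) (RatFunc F) (u : Polynomial F)) :=
        lzt_poly hirr' (fun h5 => hirr'.not_isUnit (isUnit_of_dvd_unit h5 u.isUnit))
      have hπ'0 := lzt_alg_ne π' hirr'.ne_zero
      have h7 : b N * r0⁻¹ * (algebraMap (Polynomial F) (RatFunc F) π) ^ (-(N * s : ℤ))
          = b N * (algebraMap (Polynomial F) (RatFunc F) π') ^ (-(m π' + N * s)) * r1⁻¹ *
            (algebraMap (Polynomial F) (RatFunc F) (u : Polynomial F)) ^ (-(N * s : ℤ)) := by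
        rw [← hu, map_mul, mul_zpow, h3, mul_inv, ← zpow_neg]
        have h8 : (algebraMap (Polynomial F) (RatFunc F) π') ^ (-(m π' + N * s))
            = (algebraMap (Polynomial F) (RatFunc F) π') ^ (-(m π')) *
              (algebraMap (Polynomial F) (RatFunc F) π') ^ (-(N * s : ℤ)) := by
          rw [← zpow_add₀ hπ'0]
          congr 1
          ring
        rw [h8]
        ring
      rw [h7]
      exact lzt_mul hirr' (lzt_mul hirr' hs (lzt_inv h4)) (lzt_zpow hirr' hu0 _)
  have hfac : ∀ N : ℕ, ∃ (a : F) (z : RatFunc F), 0 < N → (a ≠ 0 ∧ z ≠ 0 ∧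
      b N = r0 * (algebraMap F (RatFunc F) a * z ^ N)) := by
    intro N
    by_cases hN : 0 < N
    · obtain ⟨a, z, ha, hz, h⟩ := hFACT F N hN (b N * r0⁻¹)
        (mul_ne_zero (hb.1 N hN) (inv_ne_zero hr0n)) (hval N hN)
      refine ⟨a, z, fun _ => ⟨ha, hz, ?_⟩⟩
      rw [← h]
      field_simp
    · exact ⟨0, 0, fun h => absurd h hN⟩
  choose a z haz using hfac
  obtain ⟨r, hr, hra⟩ := hLZC F hFG hLZ b U a r0 z hb hU hloc hr0n (fun N hN => (haz N hN).1)
    (fun N hN => (haz N hN).2.1) (fun N hN => (haz N hN).2.2)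
  refine ⟨r0 * algebraMap F (RatFunc F) r, mul_ne_zero hr0n ?_, fun N hN => ?_⟩
  · rw [map_ne_zero_iff _ (algebraMap F (RatFunc F)).injective]
    exact hr
  · obtain ⟨t, ht⟩ := hra N hN
    refine ⟨algebraMap F (RatFunc F) t * z N, ?_⟩
    rw [(haz N hN).2.2, ht, map_mul, map_pow, mul_pow]
    ring

end Pool.Agent.Helper14.BSC
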