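import Pool.Agent.Helper14.BSC.Stmts

set_option autoImplicit false

namespace Pool.Agent.Helper14.BSC

section

variable {k Ω : Type} [Field k] [Field Ω] [Algebra k Ω] {p : ℕ} [Fact p.Prime]

theorem of2_mul (Lc : Loc k Ω p) (x y : Acl k Ω) : nm Lc (x * y) = nm Lc x * nm Lc y := by
  unfold nm
  rw [map_mul, norm_mul]

theorem of2_one (Lc : Loc k Ω p) : nm Lc 1 = 1 := by
  unfold nm
  rw [map_one, norm_one]

theorem of2_inv (Lc : Loc k Ω p) (x : Acl k Ω) : nm Lc x⁻¹ = (nm Lc x)⁻¹ := by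
  unfold nm
  rw [map_inv₀, norm_inv]

theorem of2_pow (Lc : Loc k Ω p) (x : Acl k Ω) (n : ℕ) : nm Lc (x ^ n) = nm Lc x ^ n := by
  unfold nm
  rw [map_pow, norm_pow]

theorem of2_pos (Lc : Loc k Ω p) {x : Acl k Ω} (h : x ≠ 0) : 0 < nm Lc x := by
  unfold nm
  rw [norm_pos_iff]
  intro h1
  exact h ((map_eq_zero Lc.ι).1 h1)

theorem of2_disc (Lc : Loc k Ω p) (x : FF Lc.S₁) (h : x ≠ 0) :
    ∃ j : ℤ, nm Lc x = nm Lc Lc.π ^ j :=
  Lc.disc x x.2 (fun h1 => h (Subtype.ext h1))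

theorem of2_zinj (Lc : Loc k Ω p) {i j : ℤ} (h : nm Lc Lc.π ^ i = nm Lc Lc.π ^ j) : i = j :=
  zpow_right_injective₀ Lc.posπ (ne_of_lt Lc.ltπ) h

/-- elements with odd value are not squares -/
theorem of2_odd (Lc : Loc k Ω p) (x : FF Lc.S₁) (j : ℤ) (hj : nm Lc x = nm Lc Lc.π ^ (2 * j + 1)) :
    ¬ IsSquare x := by
  rintro ⟨y, hy⟩
  have hπ : 0 < nm Lc Lc.π := Lc.posπ
  have hx0 : x ≠ 0 := by
    intro h0
    have h1 : nm Lc (x : Acl k Ω) = 0 := by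
      rw [h0]
      unfold nm
      rw [ZeroMemClass.coe_zero, map_zero, norm_zero]
    rw [h1] at hj
    exact absurd hj.symm (zpow_pos hπ _).ne'
  have hy0 : y ≠ 0 := by
    rintro rfl
    exact hx0 (by rw [hy, mul_zero])
  obtain ⟨i, hi⟩ := of2_disc Lc y hy0
  have h2 : nm Lc (x : Acl k Ω) = nm Lc Lc.π ^ (i + i) := by
    rw [hy]
    have h3 : ((y * y : FF Lc.S₁) : Acl k Ω) = (y : Acl k Ω) * y := rfl
    rw [h3, of2_mul, hi, zpow_add₀ hπ.ne']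
  rw [h2] at hj
  have := of2_zinj Lc hj
  omega

theorem of2_Od (Lc : Loc k Ω p) (e : FF Lc.S₁) (he : nm Lc e = 1) (x : FF Lc.S₁) (j : ℤ)
    (hj : nm Lc x = nm Lc Lc.π ^ (2 * j + 1)) : Od e x := by
  refine ⟨of2_odd Lc x j hj, of2_odd Lc (e * x) j ?_⟩
  have h3 : ((e * x : FF Lc.S₁) : Acl k Ω) = (e : Acl k Ω) * x := rfl
  rw [h3, of2_mul, he, one_mul, hj]

end

theorem of2_sq (hROOT : ST_ROOT) {k Ω : Type} [Field k] [Field Ω] [Algebra k Ω]
    (D : Sec k Ω) (S : Set (Acl k Ω)) (c : FF S) (h : IsSquare (inc D S c)) : IsSquare c := by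
  obtain ⟨y, hy⟩ := h
  obtain ⟨d, hd⟩ := hROOT k Ω D S 2 (by norm_num) y c (by rw [hy, sq])
  refine ⟨d, ?_⟩
  apply (inc D S).toRingHom.injective
  change inc D S c = inc D S (d * d)
  rw [hy, hd, map_mul]

theorem st_OF2 (hPRU : ST_PRU) (hROOT : ST_ROOT) : ST_OF2 := by
  intro k Ω _ _ _ _ _ D p _ hp2 Lc e hA O hO
  have he1 : nm Lc (e : Acl k Ω) = 1 := hA.2.1
  have hπ : 0 < nm Lc Lc.π := Lc.posπ
  have hπ1 : nm Lc Lc.π < 1 := Lc.ltπ
  have hpn : ¬ p ∣ 2 := by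
    intro h
    exact hp2 ((Nat.prime_dvd_prime_iff_eq (Fact.out : p.Prime) Nat.prime_two).1 h)
  have hone : ∀ x : FF Lc.S₁, nm Lc x < 1 → IsSquare (1 + x) := by
    intro x hx
    obtain ⟨y, hy⟩ := hPRU k Ω p Lc Lc.S₁ le_rfl 2 hpn (1 + x) (by
      have h3 : ((1 + x : FF Lc.S₁) : Acl k Ω) = 1 + (x : Acl k Ω) := rfl
      rw [h3, add_sub_cancel_left]
      exact hx)
    exact ⟨y, by rw [hy, sq]⟩
  have hOdN : ∀ x : FF Lc.S₁, Od e x → Od (inc D Lc.S₁ e) (inc D Lc.S₁ x) := by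
    intro x hx
    refine ⟨fun h => hx.1 (of2_sq hROOT D Lc.S₁ x h), fun h => hx.2 (of2_sq hROOT D Lc.S₁ (e * x) ?_)⟩
    rw [map_mul]
    exact h
  -- odd positive value
  have hoddpos : ∀ (x : FF Lc.S₁) (j : ℤ), nm Lc x = nm Lc Lc.π ^ (2 * j + 1) → nm Lc x < 1 →
      inc D Lc.S₁ x ∈ O := by
    intro x j hj hx
    rw [hO]
    left
    refine ⟨hOdN x (of2_Od Lc e he1 x j hj), ?_⟩
    obtain ⟨y, hy⟩ := hone x hx
    refine ⟨inc D Lc.S₁ y, ?_⟩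
    rw [← map_mul, ← hy, map_add, map_one]
  have hzlt : ∀ j : ℤ, nm Lc Lc.π ^ j < 1 ↔ 0 < j := by
    intro j
    rw [zpow_lt_one_iff_right_of_lt_one₀ hπ hπ1]
  set πF : FF Lc.S₁ := ⟨Lc.π, Lc.memπ⟩ with hπF
  have hπF0 : πF ≠ 0 := by
    intro h
    have h1 : Lc.π = 0 := congrArg Subtype.val h
    rw [h1] at hπ
    unfold nm at hπ
    rw [map_zero, norm_zero] at hπ
    exact lt_irrefl _ hπ
  have hπval : nm Lc (πF : Acl k Ω) = nm Lc Lc.π := rfl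
  have hsmall : ∀ x : FF Lc.S₁, nm Lc x < 1 → inc D Lc.S₁ x ∈ O := by
    intro x hx
    by_cases hx0 : x = 0
    · rw [hx0, map_zero]; exact O.zero_mem
    obtain ⟨j, hj⟩ := of2_disc Lc x hx0
    have hj0 : 0 < j := by rw [← hzlt, ← hj]; exact hx
    rcases Int.even_or_odd' j with ⟨i, hi | hi⟩
    · have h1 : x = πF * (πF⁻¹ * x) := by
        rw [← mul_assoc, mul_inv_cancel₀ hπF0, one_mul]
      rw [h1, map_mul]
      refine O.mul_mem _ _ (hoddpos πF 0 ?_ hπ1) (hoddpos (πF⁻¹ * x) (i - 1) ?_ ?_)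
      · rw [hπval]; simp
      · have h3 : ((πF⁻¹ * x : FF Lc.S₁) : Acl k Ω) = (Lc.π)⁻¹ * x := rfl
        rw [h3, of2_mul, of2_inv, hj, hi, ← zpow_neg_one, ← zpow_add₀ hπ.ne']
        congr 1
        ring
      · have h3 : ((πF⁻¹ * x : FF Lc.S₁) : Acl k Ω) = (Lc.π)⁻¹ * x := rfl
        rw [h3, of2_mul, of2_inv, hj, ← zpow_neg_one, ← zpow_add₀ hπ.ne', hzlt]
        omega
    · exact hoddpos x i (by rw [hj, hi]) hx
  have hunit : ∀ x : FF Lc.S₁, nm Lc x = 1 → inc D Lc.S₁ x ∈ O := by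
    intro x hx
    obtain ⟨N, hN, hfin⟩ := Lc.finres
    have h1 : nm Lc ((x : Acl k Ω) ^ N - 1) < 1 := hfin x x.2 hx
    have h2 : inc D Lc.S₁ (x ^ N - 1) ∈ O := hsmall (x ^ N - 1) h1
    have h3 : (inc D Lc.S₁ x) ^ N ∈ O := by
      have h4 : (inc D Lc.S₁ x) ^ N = inc D Lc.S₁ (x ^ N - 1) + 1 := by
        rw [map_sub, map_pow, map_one, sub_add_cancel]
      rw [h4]
      exact O.add_mem _ _ h2 O.one_mem
    rcases O.mem_or_inv_mem (inc D Lc.S₁ x) with h | h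
    · exact h
    · have hx0 : inc D Lc.S₁ x ≠ 0 := by
        intro h0
        have h5 : x = 0 := (inc D Lc.S₁).toRingHom.injective (by
          change inc D Lc.S₁ x = inc D Lc.S₁ 0
          rw [h0, map_zero])
        rw [h5] at hx
        unfold nm at hx
        rw [ZeroMemClass.coe_zero, map_zero, norm_zero] at hx
        exact zero_ne_one hx
      have h6 : inc D Lc.S₁ x = (inc D Lc.S₁ x) ^ N * ((inc D Lc.S₁ x)⁻¹) ^ (N - 1) := by
        obtain ⟨M, rfl⟩ : ∃ M, N = M + 1 := ⟨N - 1, by omega⟩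
        rw [Nat.add_sub_cancel, inv_pow, pow_succ]
        field_simp
      rw [h6]
      exact O.mul_mem _ _ h3 (pow_mem h _)
  have hle : ∀ x : FF Lc.S₁, nm Lc x ≤ 1 → inc D Lc.S₁ x ∈ O := by
    intro x hx
    rcases hx.lt_or_eq with h | h
    · exact hsmall x h
    · exact hunit x h
  intro x
  refine ⟨fun hx => ?_, hle x⟩
  by_contra hgt
  rw [not_le] at hgt
  have hx0 : x ≠ 0 := by
    rintro rfl
    unfold nm at hgt
    rw [ZeroMemClass.coe_zero, map_zero, norm_zero] at hgt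
    exact absurd hgt (by norm_num)
  obtain ⟨j, hj⟩ := of2_disc Lc x hx0
  have hj0 : j < 0 := by
    by_contra h
    rw [not_lt] at h
    have h1 : nm Lc Lc.π ^ j ≤ 1 := by
      rcases h.lt_or_eq with h | h
      · exact ((hzlt j).2 h).le
      · rw [← h, zpow_zero]
    rw [← hj] at h1
    linarith
  have h1 : inc D Lc.S₁ (x⁻¹ * πF⁻¹) ∈ O := by
    apply hle
    have h3 : ((x⁻¹ * πF⁻¹ : FF Lc.S₁) : Acl k Ω) = (x : Acl k Ω)⁻¹ * (Lc.π)⁻¹ := rfl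
    rw [h3, of2_mul, of2_inv, of2_inv, hj, ← zpow_neg, ← zpow_neg_one, ← zpow_add₀ hπ.ne']
    have h4 : 0 ≤ -j + -1 := by omega
    rcases h4.lt_or_eq with h | h
    · exact ((hzlt _).2 h).le
    · rw [← h, zpow_zero]
  have h2 : inc D Lc.S₁ πF⁻¹ ∈ O := by
    have h3 : πF⁻¹ = x * (x⁻¹ * πF⁻¹) := by
      rw [← mul_assoc, mul_inv_cancel₀ hx0, one_mul]
    rw [h3, map_mul]
    exact O.mul_mem _ _ hx h1
  have hOdπ : Od e πF⁻¹ := by
    refine of2_Od Lc e he1 πF⁻¹ (-1) ?_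
    have h3 : ((πF⁻¹ : FF Lc.S₁) : Acl k Ω) = (Lc.π)⁻¹ := rfl
    rw [h3, of2_inv]
    norm_num
  rw [hO] at h2
  rcases h2 with ⟨-, h2⟩ | ⟨h2, -⟩
  · have h4 : IsSquare (1 + πF⁻¹) := by
      apply of2_sq hROOT D Lc.S₁
      rw [map_add, map_one]
      exact h2
    have h5 : IsSquare (1 + πF) := hone πF hπ1
    have h6 : πF⁻¹ = (1 + πF⁻¹) * (1 + πF)⁻¹ := by
      have h7 : (1 : FF Lc.S₁) + πF ≠ 0 := by
        intro h
        have h8 : πF = -1 := by linear_combination h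
        have h9 : nm Lc (πF : Acl k Ω) = 1 := by
          rw [h8]
          unfold nm
          have : ((-1 : FF Lc.S₁) : Acl k Ω) = -1 := rfl
          rw [this, map_neg, map_one, norm_neg, norm_one]
        rw [hπval] at h9
        linarith
      field_simp
      ring
    exact hOdπ.1 (by rw [h6]; exact h4.mul h5.inv)
  · exact h2 (hOdN _ hOdπ)

end Pool.Agent.Helper14.BSC
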